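import Mathlib
import Pool.Agent.Helper802.CircDefs
import Pool.Agent.Helper802.MobS

set_option autoImplicit false

namespace Pool.Agent.Results.MP_fb0356_an.NoExponentWorks

open Filter Topology Pool.Agent.Helper802.Circ

/-- Sanity check for the definition of convergence: the constant sequence `id` converges. -/
theorem tendstoIdCr_id (r : ℝ) : TendstoIdCr r (fun _ => id) := by
  refine ⟨fun _ => id, fun _ => ⟨continuous_id, fun x => rfl⟩, ?_⟩
  have h0 : ∀ j : ℕ, iteratedDeriv j (fun _ : ℝ => (0 : ℝ)) = fun _ => 0 := by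
    intro j
    induction j with
    | zero => rfl
    | succ j ih => rw [iteratedDeriv_succ, ih]; funext x; simp
  have h : crNorm r (fun x => id x - x) = 0 := by
    simp only [id, sub_self, crNorm, h0]
    simp
  simp only [h]
  exact tendsto_const_nhds

/-- No real `r > 1` has the property of the question, and one smooth diffeomorphism refutes all of
them at once: there is a circle diffeomorphism `f`, of class `C^s` for every `s`, with irrational
rotation number `ρ`, such that `f^{q_n}` does not converge to the identity in the `C^r` topology for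
any real `r > 1`. Consequently the set of all `r > 1` asked for is empty. -/
theorem result :
    (∃ (f : UnitAddCircle ≃ₜ UnitAddCircle) (ρ : ℝ),
      (∀ s : ℝ, 1 ≤ s → IsCtDiffeo s f) ∧ HasRotationNumber f ρ ∧ Irrational ρ ∧
        ∀ r : ℝ, 1 < r → ¬ TendstoIdCr r (fun n => f^[(ρ.convergent n).den])) ∧
    {r : ℝ | 1 < r ∧ ∃ s : ℝ, r ≤ s ∧ ∀ (f : UnitAddCircle ≃ₜ UnitAddCircle) (ρ : ℝ),
      IsCtDiffeo s f → HasRotationNumber f ρ → Irrational ρ →
        TendstoIdCr r (fun n => f^[(ρ.convergent n).den])} = ∅ := by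
  obtain ⟨f, ρ, h1, h2, h3, h4⟩ := Pool.Agent.Helper802.Mob.main
  refine ⟨⟨f, ρ, h1, h2, h3, h4⟩, ?_⟩
  rw [Set.eq_empty_iff_forall_notMem]
  rintro r ⟨hr, s, hs, h⟩
  exact h4 r hr (h f ρ (h1 s (hr.le.trans hs)) h2 h3)

end Pool.Agent.Results.MP_fb0356_an.NoExponentWorks
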